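import Mathlib
import Pool.Agent.Matsaev.Window
import Pool.Agent.Matsaev.SumReal
import Pool.Agent.Matsaev.SumComplex
import Pool.Agent.Matsaev.TSide
import Pool.Agent.Matsaev.Seq

set_option autoImplicit false
open Filter Topology

namespace Pool.Agent.Results.MP_a13136_an.MatsaevFailsNearTwo

/-- The right shift on complex sequences: `(S y)(0) = 0`, `(S y)(n+1) = y(n)`. -/
def S : (ℕ → ℂ) →ₗ[ℂ] (ℕ → ℂ) where
  toFun y n := match n with
    | 0 => 0
    | n + 1 => y n
  map_add' y z := by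
    ext n
    cases n <;> simp
  map_smul' c y := by
    ext n
    cases n <;> simp

/-- The matrix `T_p = 2^{-1/p} [[1,-1],[1,1]]`. -/
noncomputable def T (p : ℝ) : Matrix (Fin 2) (Fin 2) ℂ :=
  (((2:ℝ) ^ (-1 / p) : ℝ) : ℂ) • !![(1:ℂ), -1; 1, 1]

/-- There are one polynomial `P` of degree two and a `p₀ < 2` such that for every `p ∈ (p₀,2)`
Matsaev's inequality `‖P(T_p)‖ ≤ ‖P(S)‖` fails: for some `C` one has
`‖P(S) y‖_p ≤ C ‖y‖_p` for all `y ∈ ℓ^p` and `‖P(T_p) x‖_p > C ‖x‖_p` for some `x ∈ ℂ²`. -/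
theorem result :
    ∃ P : Polynomial ℂ, P.natDegree = 2 ∧ ∃ p₀ : ℝ, 1 < p₀ ∧ p₀ < 2 ∧
      ∀ p : ℝ, p₀ < p → p < 2 →
        ∃ C : ℝ, 0 < C ∧
          (∀ y : ℕ → ℂ, Summable (fun n => ‖y n‖ ^ p) →
            Summable (fun n => ‖(Polynomial.aeval S P) y n‖ ^ p) ∧
            (∑' n, ‖(Polynomial.aeval S P) y n‖ ^ p) ^ (1 / p)
              ≤ C * (∑' n, ‖y n‖ ^ p) ^ (1 / p)) ∧
          ∃ x : Fin 2 → ℂ,
            C * (‖x 0‖ ^ p + ‖x 1‖ ^ p) ^ (1 / p)
              < (‖((Polynomial.aeval (T p) P).mulVec x) 0‖ ^ p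
                  + ‖((Polynomial.aeval (T p) P).mulVec x) 1‖ ^ p) ^ (1 / p) := by
  have hm : (1:ℝ) < 1000 := by norm_num
  have hlog : (0.6931471803 : ℝ) < Real.log 2 := Real.log_two_gt_d9
  have h1 := Pool.Agent.Matsaev.window 1000 0.00068 hm (by norm_num)
  have h2 := Pool.Agent.Matsaev.T_side 1000 0.00068 (by norm_num) (by
    have : (0.6931471803 : ℝ) / 1000 < Real.log 2 / 1000 := by
      apply div_lt_div_of_pos_right hlog (by norm_num)
    norm_num at this ⊢
    linarith)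
  have h3 := h1.and h2
  rw [eventually_nhdsWithin_iff, Metric.eventually_nhds_iff] at h3
  obtain ⟨ε, hε, h4⟩ := h3
  refine ⟨Pool.Agent.Matsaev.P 1000, ?_, max (3 / 2) (2 - ε), ?_, ?_, ?_⟩
  · have e : Pool.Agent.Matsaev.P 1000 = Polynomial.C (-(((1000:ℝ):ℂ) - 1)) * Polynomial.X ^ 2 +
        Polynomial.C (((√2 * ((1000:ℝ) ^ 2 - 1) : ℝ) : ℂ)) * Polynomial.X +
        Polynomial.C (((1000:ℝ):ℂ) + 1) := by
      simp only [Pool.Agent.Matsaev.P, map_neg]
      ring
    rw [e]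
    apply Polynomial.natDegree_quadratic
    norm_num
  · exact lt_max_of_lt_left (by norm_num)
  · exact max_lt (by norm_num) (by linarith)
  · intro p hp0 hp2
    have hpa : (3:ℝ) / 2 < p := lt_of_le_of_lt (le_max_left _ _) hp0
    have hpb : 2 - ε < p := lt_of_le_of_lt (le_max_right _ _) hp0
    have hp : 0 < p := by linarith
    obtain ⟨hF, hT⟩ := h4 (y := p) (by rw [Real.dist_eq, abs_lt]; constructor <;> linarith) hp2
    have hK : 0 < Pool.Agent.Matsaev.K 1000 0.00068 p := by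
      unfold Pool.Agent.Matsaev.K
      positivity
    have hS := Pool.Agent.Matsaev.S_bound 1000 p (Pool.Agent.Matsaev.K 1000 0.00068 p) hp hK.le
      (Pool.Agent.Matsaev.sum_complex 1000 p _ hp
        (Pool.Agent.Matsaev.sum_real 1000 0.00068 p hp hF))
    refine ⟨(Pool.Agent.Matsaev.K 1000 0.00068 p) ^ (1 / p), by positivity, ?_, ![1, 0], ?_⟩
    · intro y hy
      obtain ⟨ha, hb⟩ := hS y hy
      refine ⟨ha, ?_⟩
      rw [← Real.mul_rpow hK.le (tsum_nonneg (fun n => by positivity))]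
      exact Real.rpow_le_rpow (tsum_nonneg (fun n => by positivity)) hb (by positivity)
    · have e := Pool.Agent.Matsaev.aeval_T 1000 p
      have e' : (Polynomial.aeval (T p) (Pool.Agent.Matsaev.P 1000)).mulVec ![1, 0] =
        (Polynomial.aeval (Pool.Agent.Matsaev.T p) (Pool.Agent.Matsaev.P 1000)).mulVec ![1, 0] := rfl
      rw [e', e]
      rw [← Real.mul_rpow hK.le (by positivity)]
      apply Real.rpow_lt_rpow (by positivity) _ (by positivity)
      simp only [Matrix.cons_val_zero, Matrix.cons_val_one, norm_one, norm_zero,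
        Real.one_rpow, Real.zero_rpow hp.ne', add_zero, mul_one, Complex.norm_real, Real.norm_eq_abs]
      exact hT

end Pool.Agent.Results.MP_a13136_an.MatsaevFailsNearTwo
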